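import Pool.Agent.H32.CutRes

set_option autoImplicit false

namespace Pool.Agent.Results.MP_ec2323_pr.NoCutoff

open Filter Topology Pool.Agent.H32.Cut

noncomputable section

section defs

variable {V : Type} [Fintype V] [DecidableEq V] (Γ : SimpleGraph V) [DecidableRel Γ.Adj]

/-- Jump matrix of the simple random walk: move to a uniformly chosen neighbour. -/
def jump : Matrix V V ℝ := Matrix.of fun a b => if Γ.Adj a b then 1 / (Γ.degree a : ℝ) else 0

/-- `P_x(X_t = y)` for the continuous-time walk jumping at rate `1`. -/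
def heat (t : ℝ) (x y : V) : ℝ := ∑' j : ℕ, Real.exp (-t) * t ^ j / j.factorial * (jump Γ ^ j) x y

/-- Stationary distribution `π(x) = deg(x) / (2 |E|)`. -/
def stat (x : V) : ℝ := (Γ.degree x : ℝ) / (2 * (Γ.edgeFinset.card : ℝ))

/-- `d_x(t) = ‖P_x(X_t ∈ ·) - π‖_TV`. -/
def tvd (x : V) (t : ℝ) : ℝ := 1 / 2 * ∑ y, |heat Γ t x y - stat Γ y|

/-- `τ_x = inf {t ≥ 0 : d_x(t) ≤ 1/4}`. -/
def tau (x : V) : ℝ := sInf {t : ℝ | 0 ≤ t ∧ tvd Γ x t ≤ 1 / 4}

open Classical in
/-- `π`-probability of a set of vertices. -/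
def prob (A : Set V) : ℝ := ∑ x, if x ∈ A then stat Γ x else 0

/-- Median of `τ_x` for `x` drawn from `π`: the least `a` with `π{x : τ_x ≤ a} ≥ 1/2`. -/
def median : ℝ := sInf {a : ℝ | 1 / 2 ≤ prob Γ {x | tau Γ x ≤ a}}

/-- Second largest eigenvalue of the jump matrix: the largest eigenvalue having an eigenvector of
`π`-mean zero. The generator is `jump - I`, so its spectral gap is `1 - lam2`. -/
def lam2 : ℝ := sSup {c : ℝ | ∃ f : V → ℝ, f ≠ 0 ∧ ∑ x, stat Γ x * f x = 0 ∧ (jump Γ).mulVec f = c • f}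

/-- Relaxation time: the inverse of the spectral gap of the generator. -/
def trel : ℝ := 1 / (1 - lam2 Γ)

end defs

variable {G : Type} [AddCommGroup G] [Fintype G] [DecidableEq G] {S : Finset G} {h0 : 0 ∉ S}
  {hn : ∀ s ∈ S, -s ∈ S}

lemma stat_eq (hS : S.Nonempty) (x : G) : stat (cay S h0 hn) x = 1 / Fintype.card G := by
  have h1 := (cay S h0 hn).sum_degrees_eq_twice_card_edges
  simp only [cay_degree, Finset.sum_const, Finset.card_univ, smul_eq_mul] at h1
  have h2 : (2 * ((cay S h0 hn).edgeFinset.card : ℝ)) = Fintype.card G * S.card := by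
    exact_mod_cast h1.symm
  have h3 : (S.card : ℝ) ≠ 0 := by exact_mod_cast hS.card_pos.ne'
  rw [stat, h2, cay_degree]
  field_simp

lemma tvd_eq (hS : S.Nonempty) (x : G) (t : ℝ) : tvd (cay S h0 hn) x t = tv (ht (lz 0 S) t) := by
  have e : jump (cay S h0 hn) = M (lz 0 S) := cay_srw
  rw [← sum_sub _ x]
  simp only [tvd, heat, e, M_pow, stat_eq hS]
  rfl

lemma median_eq (hS : S.Nonempty) :
    median (cay S h0 hn) = sInf {t : ℝ | 0 ≤ t ∧ tv (ht (lz 0 S) t) ≤ 1 / 4} := by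
  have hG : (Fintype.card G : ℝ) ≠ 0 := by positivity
  simp only [median, prob, tau, tvd_eq hS, stat_eq hS, Set.mem_ofPred_eq]
  generalize sInf {t : ℝ | 0 ≤ t ∧ tv (ht (lz 0 S) t) ≤ 1 / 4} = u
  rw [← csInf_Ici (a := u)]
  congr 1
  ext a
  by_cases h : u ≤ a
  · simp only [csInf_Ici, h, if_true, Finset.sum_const, Finset.card_univ, nsmul_eq_mul,
      Set.mem_ofPred_eq, Set.mem_Ici, iff_true, mul_one_div_cancel hG]
    norm_num
  · simp [h]

lemma mean_eq (hS : S.Nonempty) (f : G → ℝ) :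
    ∑ x, stat (cay S h0 hn) x * f x = 0 ↔ ∑ x, f x = 0 := by
  simp [stat_eq hS, ← Finset.mul_sum]

theorem result :
    ∃ (V : ℕ → Type) (_ : ∀ n, Fintype (V n)) (_ : ∀ n, DecidableEq (V n))
      (Γ : ∀ n, SimpleGraph (V n)) (_ : ∀ n, DecidableRel (Γ n).Adj),
      Tendsto (fun n => Fintype.card (V n)) atTop atTop ∧
      (∀ n, (Γ n).Connected) ∧
      (∀ n x, tau (Γ n) x = median (Γ n)) ∧
      (∀ n (c : ℝ) (f : V n → ℝ), f ≠ 0 → ∑ x, stat (Γ n) x * f x = 0 →
        (jump (Γ n)).mulVec f = c • f → |c| ≤ 3 / 4) ∧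
      Tendsto (fun n => median (Γ n) / trel (Γ n)) atTop atTop ∧
      (∀ n, prob (Γ n) {x | 1 - 1 / 200 < tvd (Γ n) x ((1 - 1 / 200) * median (Γ n))} = 0) ∧
      ¬ Tendsto (fun n => prob (Γ n) {x | 1 - 1 / 200 < tvd (Γ n) x ((1 - 1 / 200) * median (Γ n))})
        atTop (𝓝 1) := by
  choose G i1 i2 i3 S h0 hS hn hP using fun n : ℕ => exists_pak (n + 1800) (by omega)
  have P0 := fun n => hP n 0 le_rfl (by norm_num)
  have e : ∀ n, jump (cay (S n) (h0 n) (hn n)) = M (lz 0 (S n)) := fun n => cay_srw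
  have low : ∀ n : ℕ, 4 * ((n : ℝ) + 1800) ≤ median (cay (S n) (h0 n) (hn n)) := fun n => by
    rw [median_eq (hS n)]
    exact_mod_cast (P0 n).ht_tau (by omega)
  have key : ∀ n, prob (cay (S n) (h0 n) (hn n)) {x | 1 - 1 / 200 < tvd (cay (S n) (h0 n) (hn n)) x
      ((1 - 1 / 200) * median (cay (S n) (h0 n) (hn n)))} = 0 := fun n => by
    refine Finset.sum_eq_zero fun x _ => if_neg ?_
    rw [Set.mem_ofPred_eq, tvd_eq (hS n), not_lt]
    refine (P0 n).ht_early (by omega) ?_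
    have := low n
    have h1 : (0 : ℝ) ≤ n := by positivity
    push_cast
    linarith
  refine ⟨G, i2, i3, fun n => cay (S n) (h0 n) (hn n), inferInstance,
    tendsto_atTop_mono (fun n => ?_) tendsto_id, fun n => cay_conn (P0 n) (by omega),
    fun n x => ?_, fun n c f h1 h2 h3 => ?_, ?_, key, ?_⟩
  · exact le_trans (Nat.le_add_right n 1800) (P0 n).card
  · rw [median_eq (hS n)]
    simp only [tau, tvd_eq (hS n)]
  · exact (P0 n).eig h1 ((mean_eq (hS n) f).1 h2) (e n ▸ h3)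
  · refine tendsto_atTop_mono (fun n => ?_) tendsto_natCast_atTop_atTop
    have h1 : lam2 (cay (S n) (h0 n) (hn n)) ≤ 3 / 4 := by
      simp only [lam2, mean_eq (hS n), e]
      exact (P0 n).l2_le
    have := low n
    have h2 : (0 : ℝ) ≤ n := by positivity
    rw [trel, div_div_eq_mul_div, div_one]
    nlinarith
  · simp only [key]
    intro h
    simpa using tendsto_nhds_unique h tendsto_const_nhds

end

end Pool.Agent.Results.MP_ec2323_pr.NoCutoff
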